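import Pool.Agent.TH7.Cyc.Main
import Pool.Agent.TH302.Tarry.Upper
import Pool.Agent.H430R2.PermCubes.General
import Pool.Agent.H430R2.PermCubes.Two

set_option autoImplicit false
set_option linter.style.longLine false

/-!
# Three three-dimensional permutation cubes of order six that form a variational cube

The value of the `c`-th cube at the cell with index `i = 36 * p + 6 * q + r` is the `i`-th base-8
digit of `tab c`; `inv` is the table of the inverse of the joint map.
-/

namespace Pool.Agent.V11166.Cube6

open Function Pool.Agent.H430R2.PermCubes Pool.Agent.TH7.Cyc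

/-- tables of the three cubes -/
def tab : ℕ → ℕ
  | 0 => 0xe236871188d0dc468343891a1c888adc44522b89115cae220571142b84a15cae140570a850adc285b194058ca650b2328542c64a1636551232a854464aa231195688ca344691a2311a3688d168d123468
  | 1 => 0x899144a99363418362444aeb40cad032264512a64d8d060d89112b363418362444aeb40c899144a9912a64d8d060d89112bad0322645444aeb40c899144a9936341836260d89112bad032264512a64d8d0
  | _ => 0x760294a4309ca4b560a0b52109dac4462358423359a8415988c42b80a7690d472909580b2d4a02761111acd6228cd42a119662150acc29d803529a427202d55282dd84246b11888d3508c466a88566b310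

/-- table of the inverse of the joint map -/
def inv : ℕ :=
  0x64a586d233a844c1125b8d117cc8299e549b085183013ab73d944aaf6cbe731b2ad1226bb32e20bb1941b46a6370779216d50f31a34259848bacce5a0527993806cb819cc450497acf48046926722dadbc85ae1f185f408cc562d67ba415479d3082b5580e4f9a0b3793c67191b953ca987f3b56780a033467bab275abcd6e1e1d242b4ca28fa1c35dd40d3e45608814c2366f0ca0094e97c94d802589029023b82cbf61763f68b1aa13cc46791c8a355ea7d3575c43557d178e9fd0d71a3ca64b6d077e5239c710329695c02174662f658728b0a9b6bd00

/-- the cubes -/
def kv (c p q r : ℕ) : ℕ := look (tab c) (36 * p + 6 * q + r)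

/-- all lines are permutations -/
def linesOk : Bool :=
  (List.range 3).all fun c => (List.range 6).all fun p => (List.range 6).all fun q =>
    (mask (fun t => kv c t p q) == 63 && mask (fun t => kv c p t q) == 63) &&
      mask (fun t => kv c p q t) == 63

/-- the three values determine the cell -/
def invOk : Bool :=
  (List.range 6).all fun p => (List.range 6).all fun q => (List.range 6).all fun r =>
    look' inv (36 * kv 0 p q r + 6 * kv 1 p q r + kv 2 p q r) == 36 * p + 6 * q + r

set_option maxRecDepth 100000 in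
theorem linesOk_true : linesOk = true := by decide +kernel

set_option maxRecDepth 100000 in
theorem invOk_true : invOk = true := by decide +kernel

/-- the three cubes on `Fin 6` -/
def K (c : Fin 3) (p q r : Fin 6) : Fin 6 := ⟨kv c p q r, look_lt _ _⟩

/-- the three cubes as functions of the cell -/
def cube (c : Fin 3) (x : Fin 3 → Fin 6) : Fin 6 := K c (x 0) (x 1) (x 2)

theorem cube_perm (c : Fin 3) : IsPermutationCube 3 6 (cube c) := by
  intro i x
  have h := linesOk_true
  simp only [linesOk, List.all_eq_true, List.mem_range, Bool.and_eq_true, beq_iff_eq] at h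
  fin_cases i
  · have e : (fun t : Fin 6 => cube c (update x 0 t)) =
        fun t : Fin 6 => (⟨kv c t (x 1) (x 2), look_lt _ _⟩ : Fin 6) := by
      funext t
      simp [cube, K]
    show Bijective (fun t : Fin 6 => cube c (update x 0 t))
    rw [e]
    exact bij_of_mask (fun _ => look_lt _ _) (h c c.2 (x 1) (x 1).2 (x 2) (x 2).2).1.1
  · have e : (fun t : Fin 6 => cube c (update x 1 t)) =
        fun t : Fin 6 => (⟨kv c (x 0) t (x 2), look_lt _ _⟩ : Fin 6) := by
      funext t
      simp [cube, K]
    show Bijective (fun t : Fin 6 => cube c (update x 1 t))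
    rw [e]
    exact bij_of_mask (fun _ => look_lt _ _) (h c c.2 (x 0) (x 0).2 (x 2) (x 2).2).1.2
  · have e : (fun t : Fin 6 => cube c (update x 2 t)) =
        fun t : Fin 6 => (⟨kv c (x 0) (x 1) t, look_lt _ _⟩ : Fin 6) := by
      funext t
      simp [cube, K]
    show Bijective (fun t : Fin 6 => cube c (update x 2 t))
    rw [e]
    exact bij_of_mask (fun _ => look_lt _ _) (h c c.2 (x 0) (x 0).2 (x 1) (x 1).2).2

/-- **Three three-dimensional permutation cubes of order six forming a variational cube.** -/
theorem isVariational_cube : IsVariationalSet 3 6 3 cube := by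
  refine ⟨cube_perm, fun e he => ?_⟩
  rw [← Finite.injective_iff_bijective]
  have hs : Surjective e := Finite.injective_iff_surjective.1 he
  intro x y hxy
  have key : ∀ c, (cube c x : ℕ) = cube c y := fun c => by
    obtain ⟨i, rfl⟩ := hs c
    exact congrArg Fin.val (congrFun hxy i)
  have hi := invOk_true
  simp only [invOk, List.all_eq_true, List.mem_range, beq_iff_eq] at hi
  have ex := hi (x 0) (x 0).2 (x 1) (x 1).2 (x 2) (x 2).2
  have ey := hi (y 0) (y 0).2 (y 1) (y 1).2 (y 2) (y 2).2
  have k0 : kv 0 (x 0) (x 1) (x 2) = kv 0 (y 0) (y 1) (y 2) := key 0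
  have k1 : kv 1 (x 0) (x 1) (x 2) = kv 1 (y 0) (y 1) (y 2) := key 1
  have k2 : kv 2 (x 0) (x 1) (x 2) = kv 2 (y 0) (y 1) (y 2) := key 2
  rw [k0, k1, k2, ey] at ex
  have a0 := (x 0).2
  have a1 := (x 1).2
  have a2 := (x 2).2
  have b0 := (y 0).2
  have b1 := (y 1).2
  have b2 := (y 2).2
  funext j
  fin_cases j
  · exact Fin.ext (show ((x 0 : Fin 6) : ℕ) = y 0 by omega)
  · exact Fin.ext (show ((x 1 : Fin 6) : ℕ) = y 1 by omega)
  · exact Fin.ext (show ((x 2 : Fin 6) : ℕ) = y 2 by omega)

/-- fewer cubes -/
theorem mono {m n k l : ℕ} (hl : l ≤ k)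
    (h : ∃ C : Fin k → (Fin m → Fin n) → Fin n, IsVariationalSet m n k C) :
    ∃ C : Fin l → (Fin m → Fin n) → Fin n, IsVariationalSet m n l C := by
  obtain ⟨C, h1, h2⟩ := h
  exact ⟨fun i => C (Fin.castLE hl i), fun i => h1 _,
    fun e he => h2 (fun i => Fin.castLE hl (e i)) ((Fin.castLE_injective hl).comp he)⟩

/-- dimension two, from a pair of orthogonal latin squares -/
theorem exists_two {n : ℕ} (h0 : n ≠ 0) (h2 : n ≠ 2) (h6 : n ≠ 6) :
    ∃ C : Fin 2 → (Fin 2 → Fin n) → Fin n, IsVariationalSet 2 n 2 C := by
  obtain ⟨A, B, hA1, hA2, hB1, hB2, hAB⟩ := Pool.Agent.H430R2.Mols.euler_ops h0 h2 h6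
  refine ⟨fun c x => if c = 0 then A (x 0) (x 1) else B (x 0) (x 1), ?_, ?_⟩
  · intro c i x
    fin_cases i
    · by_cases hc : c = 0
      · simp only [hc, if_true]
        simpa using hA2 (x 1)
      · simp only [hc, if_false]
        simpa using hB2 (x 1)
    · by_cases hc : c = 0
      · simp only [hc, if_true]
        simpa using hA1 (x 0)
      · simp only [hc, if_false]
        simpa using hB1 (x 0)
  · intro e he
    rw [← Finite.injective_iff_bijective]
    have hs : Surjective e := Finite.injective_iff_surjective.1 he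
    intro x y hxy
    obtain ⟨i, hi⟩ := hs 0
    obtain ⟨j, hj⟩ := hs 1
    have g0 : A (x 0) (x 1) = A (y 0) (y 1) := by
      have := congrFun hxy i
      simpa [hi] using this
    have g1 : B (x 0) (x 1) = B (y 0) (y 1) := by
      have := congrFun hxy j
      simpa [hj] using this
    have g := hAB (a₁ := (x 0, x 1)) (a₂ := (y 0, y 1)) (Prod.ext g0 g1)
    funext l
    fin_cases l
    · exact congrArg Prod.fst g
    · exact congrArg Prod.snd g

/-- no variational cube of dimension two and order six (Tarry) -/
theorem not_two_six : ¬ ∃ C : Fin 2 → (Fin 2 → Fin 6) → Fin 6, IsVariationalSet 2 6 2 C := by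
  rintro ⟨C, h1, h2⟩
  have u0 : ∀ (p q t : Fin 6), update (![p, q] : Fin 2 → Fin 6) 0 t = ![t, q] := by
    intro p q t
    funext j
    fin_cases j <;> simp
  have u1 : ∀ (p q t : Fin 6), update (![p, q] : Fin 2 → Fin 6) 1 t = ![p, t] := by
    intro p q t
    funext j
    fin_cases j <;> simp
  refine Pool.Agent.TH302.Tarry.tarry (fun p q => C 0 ![p, q]) (fun p q => C 1 ![p, q])
    ?_ ?_ ?_ ?_ ?_
  · intro p
    have := (h1 0 1 ![p, 0]).1
    simpa [u1] using this
  · intro q
    have := (h1 0 0 ![0, q]).1
    simpa [u0] using this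
  · intro p
    have := (h1 1 1 ![p, 0]).1
    simpa [u1] using this
  · intro q
    have := (h1 1 0 ![0, q]).1
    simpa [u0] using this
  · intro i c i' c' ha hb
    have hinj := (h2 id injective_id).1
    have := hinj (a₁ := ![i, c]) (a₂ := ![i', c']) (by
      funext l
      fin_cases l
      · exact ha
      · exact hb)
    exact ⟨congrFun this 0, congrFun this 1⟩

end Pool.Agent.V11166.Cube6
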